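import Pool.Agent.NBT.StmtsC

/-!
# NBT row SCE (all neighbours of `v` are forced), Theorem BT of the NBT squad (MP_e54c4c_gt)
-/

set_option autoImplicit false

open Matrix Filter Topology

namespace Pool.Agent.NBT.H10

open Pool.Agent.PFS Pool.Agent.PFJ Pool.Agent.NBT

theorem sceF (hSxn : SxnStmt) (hPur : PurStmt) (hScb : ScbStmt) : SceStmt := by
  intro n C Γ Γ₀ K T c hTB hMnl hNo I Up hCmp
  classical
  obtain ⟨v, hv, j, hj, hvj, w, x, hTw, hMv, hSx⟩ := hCmp.arr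
  have h3 : 3 ≤ c {v, j} := (hSxn n C Γ Γ₀ K T c hTB w hTw v x hMv).2.1 j hSx
  obtain ⟨W, y, hTW, hMvW, hr⟩ := hPur n C Γ Γ₀ K T c hTB w hTw v j x hMv hSx
  refine ⟨v, hv, j, hj, hvj, h3, ?_⟩
  have key : ∀ s : Finset (Fin K), (∀ m ∈ s, m ∈ I ∧ m ≠ v ∧ m ≠ j ∧ 3 ≤ c {v, m}) →
      ∃ w : Fin K → V n, Sta C T I s v j w := by
    intro s
    induction s using Finset.induction_on with
    | empty =>
      intro _
      exact ⟨W, ⟨hTW, ⟨y, hMvW, hr⟩, fun m hm => absurd hm (Finset.notMem_empty m)⟩⟩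
    | insert a s has ih =>
      intro hs
      obtain ⟨w', hw'⟩ := ih (fun m hm => hs m (Finset.mem_insert_of_mem hm))
      obtain ⟨ha1, ha2, ha3, ha4⟩ := hs a (Finset.mem_insert_self a s)
      exact hScb n C Γ Γ₀ K T c hTB hMnl hNo I Up hCmp v hv j hj hvj s w' hw'
        (fun m hm => hs m (Finset.mem_insert_of_mem hm)) a ha1 has ha2 ha3 ha4
  obtain ⟨w', hw'⟩ := key (Finset.univ.filter (fun m => m ∈ I ∧ m ≠ v ∧ m ≠ j ∧ 3 ≤ c {v, m}))
    (fun m hm => (Finset.mem_filter.mp hm).2)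
  refine ⟨_, w', hw', fun m hm => (Finset.mem_filter.mp hm).2, ?_⟩
  intro m h1 h2 h3' h4
  exact Finset.mem_filter.mpr ⟨Finset.mem_univ m, h1, h2, h3', h4⟩

end Pool.Agent.NBT.H10
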